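import Mathlib
import Pool.Agent.P.MP_7b51c2_an.Ell1

namespace Pool.Agent.Results.MP_7b51c2_an.UARLinBall

/-- The real sequence space `ℓ₁`; the coordinate `x n` (`n = 0, 1, …`) is `x_{n+1}`. -/
abbrev L1 : Type := lp (fun _ : ℕ => ℝ) 1

/-- Lin's weights `γ_k = 8^k / (1 + 8^k)`. -/
noncomputable def gam (k : ℕ) : ℝ := 8 ^ k / (1 + 8 ^ k)

/-- Lin's norm `‖x‖_γ = sup_{k ≥ 1} γ_k ∑_{n ≥ k} |x_n|`; the index `j = 0, 1, …` is `k - 1`. -/
noncomputable def linNorm (x : L1) : ℝ := ⨆ j : ℕ, gam (j + 1) * ∑' n : ℕ, |x (n + j)|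

/-- The closed unit ball `B_γ` of Lin's norm. -/
abbrev LinBall : Type := {x : L1 // linNorm x ≤ 1}

/-- For every `ε > 0` there is a `(1+ε)`-Lipschitz, uniformly asymptotically regular self-map of
`B_γ` without fixed points. -/
theorem result (ε : ℝ) (hε : 0 < ε) :
    ∃ T : LinBall → LinBall,
      (∀ x y : LinBall, linNorm ((T x).1 - (T y).1) ≤ (1 + ε) * linNorm (x.1 - y.1)) ∧
      (∀ δ : ℝ, 0 < δ → ∃ N : ℕ, ∀ n : ℕ, N ≤ n → ∀ x : LinBall,
        linNorm ((T^[n] x).1 - (T^[n + 1] x).1) ≤ δ) ∧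
      ∀ x : LinBall, T x ≠ x := by
  obtain ⟨T, h1, h2, h3, h4⟩ := Pool.Agent.P.MP_7b51c2_an.weighted_uar
    (g := fun j => gam (j + 1)) (fun k => by unfold gam; positivity)
    (fun k => by
      unfold gam
      rw [div_le_one (by positivity)]
      linarith)
    (by unfold gam; positivity) linNorm (fun x => rfl) hε
  let T' : LinBall → LinBall := fun x => ⟨T x.1, h1 x.1 x.2⟩
  have hit : ∀ (n : ℕ) (x : LinBall), (T'^[n] x).1 = T^[n] x.1 := by
    intro n x
    induction n with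
    | zero => rfl
    | succ n ih =>
      rw [Function.iterate_succ_apply', Function.iterate_succ_apply', ← ih]
  refine ⟨T', fun x y => h2 x.1 y.1, fun δ hδ => ?_, fun x hx => h4 x.1 (congrArg Subtype.val hx)⟩
  obtain ⟨N, hN⟩ := h3 δ hδ
  refine ⟨N, fun n hn x => ?_⟩
  rw [hit, hit]
  exact hN n hn x.1 x.2

end Pool.Agent.Results.MP_7b51c2_an.UARLinBall
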